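import Pool.Agent.Y382.DN.Stm

/-! Project DN: task SHARP (helper433). -/

set_option autoImplicit false

namespace Pool.Agent.Y433.DN

open Finset Pool.Agent.Y622.NG Pool.Agent.H607R2.BW Pool.Agent.TH454.BW Pool.Agent.Y382.DN

/-- positions of the bits of two strings in their concatenation -/
def e2 (m : ℕ) : Fin 2 × Fin m ≃ Fin (m + m) :=
  ((finTwoEquiv.prodCongr (Equiv.refl (Fin m))).trans (Equiv.boolProdEquivSum (Fin m))).trans
    finSumFinEquiv

theorem e2_app {m : ℕ} (x y : Str m) (p : Fin 2 × Fin m) :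
    (Fin.append x y) (e2 m p) = (![x, y] : Fin 2 → Str m) p.1 p.2 := by
  obtain ⟨i, j⟩ := p
  fin_cases i
  · have h : e2 m (0, j) = Fin.castAdd m j := rfl
    change Fin.append x y (e2 m (0, j)) = _
    rw [h, Fin.append_left]
    rfl
  · have h : e2 m (1, j) = Fin.natAdd m j := rfl
    change Fin.append x y (e2 m (1, j)) = _
    rw [h, Fin.append_right]
    rfl

theorem pair_of_nobdd (hsim : S_SIM) {m β : ℕ} {R : (Fin 2 → Str m) → Prop}
    (h : HasNObdd β R) : ∃ s : ℕ, PairDnnf m s 1 (fun x y => R ![x, y]) ∧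
      s ≤ 10 * (β + 1) * (m + m + 1) := by
  obtain ⟨ord, σ, T, s₀, F, hT, hR⟩ := h
  obtain ⟨s, C, out, hs, hC⟩ := hsim (m + m) β
    ((finCongr (two_mul m).symm).trans (ord.trans (e2 m))) σ T s₀ F hT
  refine ⟨s, ⟨C, out, fun x y => ?_⟩, hs⟩
  show _ ↔ R ![x, y]
  rw [hC, hR]
  have hl : (List.ofFn fun p => (Fin.append x y)
      (((finCongr (two_mul m).symm).trans (ord.trans (e2 m))) p)) = bits ord ![x, y] := by
    unfold Pool.Agent.TH454.BW.bits
    rw [List.ofFn_congr (two_mul m).symm]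
    congr 1
    funext p
    simp only [Equiv.trans_apply, e2_app]
    congr
  rw [hl]

theorem t_SHK (hsim : S_SIM) : S_SHK := by
  intro s t l m hs ht hl hm
  obtain ⟨w, G, h1, h2, h3, h4⟩ := kst_tradeoff s t l m hs ht hl hm
  obtain ⟨z, h5, h6⟩ := pair_of_nobdd hsim (nobdd_of_obdd (obdd_of_width h1))
  refine ⟨z, G, h5, h2, h6.trans ?_, h4⟩
  have hP : 1 ≤ 2 ^ ((s - 1) * l) := Nat.one_le_two_pow
  generalize 2 ^ ((s - 1) * l) = P at *
  have h7 : 2 * (3 * w) + 1 ≤ 25 * P := by omega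
  calc 10 * (2 * (3 * w) + 1) * (m + m + 1) ≤ 10 * (25 * P) * (2 * (m + 1)) := by
        gcongr; omega
    _ = 500 * ((m + 1) * P) := by ring
    _ ≤ 1000 * ((m + 1) * P) := by omega
    _ = 1000 * (m + 1) * P := by ring

theorem t_SHG (hsim : S_SIM) : S_SHG := by
  intro t m ht hm
  obtain ⟨w, G, h1, h2, h3, h4⟩ := girth_tradeoff t m ht hm
  obtain ⟨z, h5, h6⟩ := pair_of_nobdd hsim (nobdd_of_obdd h1)
  refine ⟨z, G, h5, h2, h6.trans ?_, h4⟩
  have hP : 1 ≤ 2 ^ t := Nat.one_le_two_pow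
  generalize 2 ^ t = P at *
  have h7 : 2 * w + 1 ≤ 19 * P := by omega
  calc 10 * (2 * w + 1) * (m + m + 1) ≤ 10 * (19 * P) * (2 * (m + 1)) := by
        gcongr; omega
    _ = 380 * ((m + 1) * P) := by ring
    _ ≤ 1000 * ((m + 1) * P) := by omega
    _ = 1000 * (m + 1) * P := by ring

theorem t_SHR (hsim : S_SIM) : S_SHR := by
  intro t l m hl hm
  obtain ⟨w, A, h0, h1, h2, h3, h4⟩ := rep_tradeoff t l m hl hm
  obtain ⟨ord, σ, T, s₀, F, hT, hR⟩ := setNObdd_of_setObdd h1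
  obtain ⟨s, C, out, hs, hC⟩ := hsim m (2 * w) ord σ T s₀ F hT
  refine ⟨s, A, h0, ⟨C, out, fun a ha => ?_⟩, h2, hs.trans ?_, h4⟩
  · rw [hC, hR a ha]
    rfl
  · have hP : 4 ≤ 2 ^ l := by
      calc 4 = 2 ^ 2 := by norm_num
        _ ≤ 2 ^ l := Nat.pow_le_pow_right (by norm_num) hl
    generalize 2 ^ l = P at *
    have h7 : 2 * w + 1 ≤ 6 * P := by omega
    calc 10 * (2 * w + 1) * (m + 1) ≤ 10 * (6 * P) * (m + 1) := by gcongr
      _ = 60 * (m + 1) * P := by ring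

end Pool.Agent.Y433.DN
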